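import Pool.Agent.P.MP_7cb106_nt.Defs

/-! Working definitions and small tools. -/

set_option autoImplicit false

namespace Pool.Agent.P.MP_7cb106_nt.T

open Matrix Polynomial Module NumberField
open scoped TensorProduct ComplexOrder

/-- the vectors fixed by the subgroup `U` -/
noncomputable abbrev inv {C H V : Type} [Field C] [Group H] [AddCommGroup V] [Module C V]
    (ρ : Representation C H V) (U : Subgroup H) : Submodule C V :=
  Representation.invariants (ρ.comp U.subtype)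

lemma mem_inv {C H V : Type} [Field C] [Group H] [AddCommGroup V] [Module C V]
    {ρ : Representation C H V} {U : Subgroup H} {v : V} : v ∈ inv ρ U ↔ ∀ u ∈ U, ρ u v = v :=
  ⟨fun h u hu => h ⟨u, hu⟩, fun h u => h u.1 u.2⟩

open Classical in
/-- trace of `f` on the subspace `W` (zero when `W` is not stable) -/
noncomputable def trOn {C V : Type} [Field C] [AddCommGroup V] [Module C V] (W : Submodule C V)
    (f : V →ₗ[C] V) : C :=
  if h : ∀ x ∈ W, f x ∈ W then LinearMap.trace C W (f.restrict h) else 0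

lemma trOn_eq {C V : Type} [Field C] [AddCommGroup V] [Module C V] {W : Submodule C V}
    {f : V →ₗ[C] V} (h : ∀ x ∈ W, f x ∈ W) : trOn W f = LinearMap.trace C W (f.restrict h) :=
  dif_pos h

/-- the pairing of the function `θ` with the traces of the maps `f k` on `W` -/
noncomputable def mu {C H V : Type} [Field C] [Group H] [AddCommGroup V] [Module C V]
    (θ : H → C) (N : Subgroup H) (f : H → V →ₗ[C] V) (W : Submodule C V) : C :=
  ∑ᶠ q : H ⧸ N, θ (q.out)⁻¹ * trOn W (f q.out)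

/-- proportional multiplicities in all irreducible admissible smooth representations -/
def Hyp {C G S S' : Type} [Field C] [Group G] [TopologicalSpace G] [AddCommGroup S] [Module C S]
    [AddCommGroup S'] [Module C S'] (K0 : Subgroup G) (σ : Representation C K0 S)
    (σ' : Representation C K0 S') (m m' : ℕ) : Prop :=
  ∀ (V : Type) [AddCommGroup V] [Module C V] (π : Representation C G V),
    π.IsIrreducible → Smooth π → Admissible π →
      m' * finrank C (Representation.IntertwiningMap σ (π.comp K0.subtype)) =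
        m * finrank C (Representation.IntertwiningMap σ' (π.comp K0.subtype))

/-- finitely many double cosets -/
def Cofin {G : Type} [Group G] (Γ K0 : Subgroup G) : Prop :=
  ∃ T : Finset G, ∀ g : G, ∃ γ ∈ Γ, ∃ t ∈ T, ∃ k ∈ K0, g = γ * t * k

/-- every element of the coset `Γ δ` that is conjugate into `K0` lands in the class of `δ` -/
def Rigid {G : Type} [Group G] (Γ K0 : Subgroup G) (δ : K0) : Prop :=
  ∀ γ ∈ Γ, ∀ (x : G) (κ : K0), x⁻¹ * (γ * δ) * x = κ → IsConj κ δ

/-- smooth left `Γ`-invariant functions on `G` -/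
def autV (C : Type) [Field C] {G : Type} [Group G] [TopologicalSpace G] (Γ : Subgroup G) :
    Submodule C (G → C) where
  carrier := {F | (∀ γ ∈ Γ, ∀ x, F (γ * x) = F x) ∧
    ∃ U : Subgroup G, IsOpen (U : Set G) ∧ ∀ u ∈ U, ∀ x, F (x * u) = F x}
  add_mem' := by
    rintro F F' ⟨h1, U, hU, h2⟩ ⟨h1', U', hU', h2'⟩
    refine ⟨fun γ hγ x => ?_, U ⊓ U', hU.inter hU', fun u hu x => ?_⟩
    · simp only [Pi.add_apply, h1 γ hγ, h1' γ hγ]
    · simp only [Pi.add_apply, h2 u hu.1, h2' u hu.2]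
  zero_mem' := ⟨fun _ _ _ => rfl, ⊤, isOpen_univ, fun _ _ _ => rfl⟩
  smul_mem' := by
    rintro c F ⟨h1, U, hU, h2⟩
    refine ⟨fun γ hγ x => ?_, U, hU, fun u hu x => ?_⟩
    · simp only [Pi.smul_apply, h1 γ hγ]
    · simp only [Pi.smul_apply, h2 u hu]

lemma autV_right {C : Type} [Field C] {G : Type} [Group G] [TopologicalSpace G]
    [IsTopologicalGroup G] {Γ : Subgroup G} {F : G → C} (hF : F ∈ autV C Γ) (g : G) :
    (fun x => F (x * g)) ∈ autV C Γ := by
  obtain ⟨h1, U, hU, h2⟩ := hF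
  refine ⟨fun γ hγ x => ?_, U.comap (MulAut.conj g⁻¹).toMonoidHom, ?_, fun u hu x => ?_⟩
  · simp only [mul_assoc, h1 γ hγ]
  · have hc : Continuous fun u : G => g⁻¹ * u * g⁻¹⁻¹ := by fun_prop
    exact hU.preimage hc
  · have hu' : g⁻¹ * u * g⁻¹⁻¹ ∈ U := hu
    have := h2 _ hu' (x * g)
    simp only [inv_inv, mul_assoc, mul_inv_cancel_left] at this
    simpa only [mul_assoc] using this

/-- right translation on smooth left `Γ`-invariant functions -/
def autRep (C : Type) [Field C] {G : Type} [Group G] [TopologicalSpace G] [IsTopologicalGroup G]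
    (Γ : Subgroup G) : Representation C G (autV C Γ) where
  toFun g :=
    { toFun := fun F => ⟨fun x => F.1 (x * g), autV_right F.2 g⟩
      map_add' := fun _ _ => rfl
      map_smul' := fun _ _ => rfl }
  map_one' := by ext F x; simp
  map_mul' g h := by ext F x; simp [mul_assoc]

lemma autRep_apply {C : Type} [Field C] {G : Type} [Group G] [TopologicalSpace G]
    [IsTopologicalGroup G] {Γ : Subgroup G} (g : G) (F : autV C Γ) (x : G) :
    (autRep C Γ g F).1 x = F.1 (x * g) := rfl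

/-- left translation by an element normalising `Γ` -/
def autD (C : Type) [Field C] {G : Type} [Group G] [TopologicalSpace G] (Γ : Subgroup G) (δ : G)
    (h : ∀ γ ∈ Γ, δ * γ * δ⁻¹ ∈ Γ) : autV C Γ →ₗ[C] autV C Γ where
  toFun F := ⟨fun x => F.1 (δ * x), by
    obtain ⟨h1, U, hU, h2⟩ := F.2
    refine ⟨fun γ hγ x => ?_, U, hU, fun u hu x => ?_⟩
    · have := h1 _ (h γ hγ) (δ * x)
      simpa only [mul_assoc, inv_mul_cancel_left] using this
    · have := h2 u hu (δ * x)
      simpa only [mul_assoc] using this⟩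
  map_add' _ _ := rfl
  map_smul' _ _ := rfl

lemma autD_apply {C : Type} [Field C] {G : Type} [Group G] [TopologicalSpace G] {Γ : Subgroup G}
    {δ : G} (h : ∀ γ ∈ Γ, δ * γ * δ⁻¹ ∈ Γ) (F : autV C Γ) (x : G) :
    (autD C Γ δ h F).1 x = F.1 (δ * x) := rfl

/-- a root of a nonzero integer polynomial all of whose complex roots are real -/
def TotReal {K : Type} [Field K] (y : K) : Prop :=
  ∃ f : ℤ[X], f ≠ 0 ∧ aeval y f = 0 ∧ ∀ z : ℂ, aeval z f = 0 → z.im = 0

/-- `c` is complex conjugation in every complex embedding -/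
def Conj {L : Type} [Field L] (c : L ≃+* L) : Prop :=
  ∀ (φ : L →+* ℂ) (x : L), φ (c x) = starRingEnd ℂ (φ x)

/-- a dense field of CM type in which the place of `K` differs from its conjugate -/
structure CM {K L : Type} [NormedField K] [Field L] (j : L →+* K) (c : L ≃+* L) : Prop where
  conj : Conj c
  dense : DenseRange j
  split : ∃ a : L, IsIntegral ℤ a ∧ ‖j a‖ < 1 ∧ ‖j (c a)‖ = 1

/-- the ring of integers with `b` inverted -/
def Rb {L : Type} [Field L] (b : 𝓞 L) : Subring L where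
  carrier := {x | ∃ k : ℕ, IsIntegral ℤ ((b : L) ^ k * x)}
  mul_mem' := by
    rintro x y ⟨k, hk⟩ ⟨l, hl⟩
    refine ⟨k + l, ?_⟩
    have e : (b : L) ^ (k + l) * (x * y) = (b : L) ^ k * x * ((b : L) ^ l * y) := by ring
    rw [e]
    exact hk.mul hl
  one_mem' := ⟨0, by simpa using isIntegral_one⟩
  add_mem' := by
    rintro x y ⟨k, hk⟩ ⟨l, hl⟩
    have hb : IsIntegral ℤ (b : L) := b.2
    refine ⟨k + l, ?_⟩
    have e : (b : L) ^ (k + l) * (x + y) =
        (b : L) ^ l * ((b : L) ^ k * x) + (b : L) ^ k * ((b : L) ^ l * y) := by ring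
    rw [e]
    exact ((hb.pow l).mul hk).add ((hb.pow k).mul hl)
  zero_mem' := ⟨0, by simpa using isIntegral_zero⟩
  neg_mem' := by
    rintro x ⟨k, hk⟩
    exact ⟨k, by simpa using hk.neg⟩

lemma mem_Rb {L : Type} [Field L] {b : 𝓞 L} {x : L} :
    x ∈ Rb b ↔ ∃ k : ℕ, IsIntegral ℤ ((b : L) ^ k * x) := Iff.rfl

lemma int_mem_Rb {L : Type} [Field L] {b : 𝓞 L} {x : L} (h : IsIntegral ℤ x) : x ∈ Rb b :=
  ⟨0, by simpa using h⟩

/-- inverting `b` inverts exactly the place of `K` and its conjugate -/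
structure Good {K L : Type} [NormedField K] [Field L] (j : L →+* K) (c : L ≃+* L) (b : 𝓞 L) :
    Prop where
  ne : (b : L) ≠ 0
  fix : c b = b
  small : ‖j b‖ < 1
  r1 : ∀ x ∈ Rb b, ‖j x‖ ≤ 1 → ‖j (c x)‖ ≤ 1 → IsIntegral ℤ x
  r2 : ∀ (y1 y2 : K) (ε : ℝ), 0 < ε → ∃ x ∈ Rb b, ‖j x - y1‖ < ε ∧ ‖j (c x) - y2‖ < ε

/-- an integral totally positive definite hermitian matrix -/
structure Herm {L : Type} [Field L] {n : ℕ} (c : L ≃+* L) (H : Matrix (Fin n) (Fin n) L) :
    Prop where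
  int : ∀ i k, IsIntegral ℤ (H i k)
  herm : (H.map c)ᵀ = H
  pos : ∀ φ : L →+* ℂ, (H.map φ).PosDef

/-- the hermitian form of the matrix `H` -/
def hf {L : Type} [Field L] {n : ℕ} (c : L ≃+* L) (H : Matrix (Fin n) (Fin n) L)
    (x y : Fin n → L) : L :=
  (fun i => c (x i)) ⬝ᵥ (H *ᵥ y)

/-- `u` preserves the hermitian form -/
def Uni {L : Type} [Field L] {n : ℕ} (c : L ≃+* L) (H u : Matrix (Fin n) (Fin n) L) : Prop :=
  (u.map c)ᵀ * H * u = H

lemma Uni.mul {L : Type} [Field L] {n : ℕ} {c : L ≃+* L} {H u v : Matrix (Fin n) (Fin n) L}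
    (hu : Uni c H u) (hv : Uni c H v) : Uni c H (u * v) := by
  unfold Uni at *
  have e : (u * v).map c = u.map c * v.map c := Matrix.map_mul (f := c)
  rw [e, transpose_mul]
  calc (v.map c)ᵀ * (u.map c)ᵀ * H * (u * v) = (v.map c)ᵀ * ((u.map c)ᵀ * H * u) * v := by
        simp only [Matrix.mul_assoc]
    _ = H := by rw [hu, hv]

lemma Uni.one {L : Type} [Field L] {n : ℕ} {c : L ≃+* L} {H : Matrix (Fin n) (Fin n) L} :
    Uni c H 1 := by
  unfold Uni
  rw [Matrix.map_one _ (map_zero c) (map_one c)]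
  simp

lemma Uni.inv {L : Type} [Field L] {n : ℕ} {c : L ≃+* L} {H u v : Matrix (Fin n) (Fin n) L}
    (hu : Uni c H u) (h : u * v = 1) : Uni c H v := by
  have h1 : Uni c H (u * v) := h ▸ Uni.one
  unfold Uni at *
  have e : (u * v).map c = u.map c * v.map c := Matrix.map_mul (f := c)
  rw [e, transpose_mul] at h1
  calc (v.map c)ᵀ * H * v = (v.map c)ᵀ * ((u.map c)ᵀ * H * u) * v := by rw [hu]
    _ = (v.map c)ᵀ * (u.map c)ᵀ * H * (u * v) := by simp only [Matrix.mul_assoc]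
    _ = H := h1

lemma ent_mul {L : Type} [Field L] {n : ℕ} {R : Subring L} {A B : Matrix (Fin n) (Fin n) L}
    (hA : ∀ i k, A i k ∈ R) (hB : ∀ i k, B i k ∈ R) : ∀ i k, (A * B) i k ∈ R := by
  intro i k
  rw [Matrix.mul_apply]
  exact R.sum_mem fun l _ => R.mul_mem (hA i l) (hB l k)

lemma ent_one {L : Type} [Field L] {n : ℕ} {R : Subring L} :
    ∀ i k, (1 : Matrix (Fin n) (Fin n) L) i k ∈ R := by
  intro i k
  rw [Matrix.one_apply]
  split_ifs
  exacts [R.one_mem, R.zero_mem]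

/-- the unitary group of `H` over the ring `Rb b` -/
def Gam {L : Type} [Field L] {n : ℕ} (c : L ≃+* L) (b : 𝓞 L) (H : Matrix (Fin n) (Fin n) L) :
    Subgroup (GL (Fin n) L) where
  carrier := {γ | (∀ i k, (γ : Matrix (Fin n) (Fin n) L) i k ∈ Rb b) ∧
    (∀ i k, ((γ⁻¹ : GL (Fin n) L) : Matrix (Fin n) (Fin n) L) i k ∈ Rb b) ∧
      Uni c H (γ : Matrix (Fin n) (Fin n) L)}
  mul_mem' := by
    intro g h hg hh
    refine ⟨ent_mul hg.1 hh.1, ?_, hg.2.2.mul hh.2.2⟩
    rw [_root_.mul_inv_rev]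
    exact ent_mul hh.2.1 hg.2.1
  one_mem' := ⟨ent_one, by rw [_root_.inv_one]; exact ent_one, Uni.one⟩
  inv_mem' := by
    intro g hg
    refine ⟨hg.2.1, ?_, hg.2.2.inv g.mul_inv⟩
    rw [_root_.inv_inv]
    exact hg.1

/-- congruence of matrices modulo `l` times the ring `Rb b` -/
def Cong {L : Type} [Field L] {n : ℕ} (b : 𝓞 L) (l : ℕ) (A B : Matrix (Fin n) (Fin n) L) :
    Prop :=
  ∃ Y : Matrix (Fin n) (Fin n) L, (∀ i k, Y i k ∈ Rb b) ∧ A = B + (l : L) • Y

/-- the principal congruence subgroup of level `l` -/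
def GamL {L : Type} [Field L] {n : ℕ} (c : L ≃+* L) (b : 𝓞 L) (H : Matrix (Fin n) (Fin n) L)
    (l : ℕ) : Subgroup (GL (Fin n) L) where
  carrier := {γ | γ ∈ Gam c b H ∧ Cong b l (γ : Matrix (Fin n) (Fin n) L) 1}
  mul_mem' := by
    rintro g h ⟨hg, Y, hY, eg⟩ ⟨hh, Z, hZ, eh⟩
    refine ⟨mul_mem hg hh, Z + Y * (h : Matrix (Fin n) (Fin n) L), fun i k => ?_, ?_⟩
    · exact (Rb b).add_mem (hZ i k) (ent_mul hY hh.1 i k)
    · rw [Units.val_mul]
      conv_lhs => rw [eg, Matrix.add_mul, Matrix.one_mul, Matrix.smul_mul]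
      rw [smul_add, ← add_assoc, ← eh]
  one_mem' := ⟨one_mem _, 0, fun _ _ => (Rb b).zero_mem, by simp⟩
  inv_mem' := by
    rintro g ⟨hg, Y, hY, eg⟩
    refine ⟨inv_mem hg, -(Y * ((g⁻¹ : GL (Fin n) L) : Matrix (Fin n) (Fin n) L)),
      fun i k => ?_, ?_⟩
    · exact (Rb b).neg_mem (ent_mul hY hg.2.1 i k)
    · have h1 : (g : Matrix (Fin n) (Fin n) L) *
          ((g⁻¹ : GL (Fin n) L) : Matrix (Fin n) (Fin n) L) = 1 := g.mul_inv
      generalize ((g⁻¹ : GL (Fin n) L) : Matrix (Fin n) (Fin n) L) = g' at h1 ⊢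
      rw [eg, Matrix.add_mul, Matrix.one_mul, Matrix.smul_mul] at h1
      rw [smul_neg, ← h1]
      abel

/-- the lattice attached to an element of `GL_n(K)` -/
def latM {K L : Type} [NormedField K] [Field L] {n : ℕ} (j : L →+* K) (c : L ≃+* L) (b : 𝓞 L)
    (H : Matrix (Fin n) (Fin n) L) (g : GL (Fin n) K) : Set (Fin n → L) :=
  {x | (∀ i, x i ∈ Rb b) ∧
    (∀ i, ‖(((g⁻¹ : GL (Fin n) K) : Matrix (Fin n) (Fin n) K) *ᵥ fun k => j (x k)) i‖ ≤ 1) ∧
    ∀ i, ‖(((H.map j * (g : Matrix (Fin n) (Fin n) K))ᵀ) *ᵥ fun k => j (c (x k))) i‖ ≤ 1}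

/-- an integral hermitian lattice that contains `D` times its dual -/
structure Lat {L : Type} [Field L] {n : ℕ} (c : L ≃+* L) (H : Matrix (Fin n) (Fin n) L) (D : L)
    (M : Set (Fin n → L)) : Prop where
  zero : (0 : Fin n → L) ∈ M
  add : ∀ x ∈ M, ∀ y ∈ M, x + y ∈ M
  smul : ∀ a : L, IsIntegral ℤ a → ∀ x ∈ M, a • x ∈ M
  int : ∀ x ∈ M, ∀ y ∈ M, IsIntegral ℤ (hf c H x y)
  dual : ∀ y, (∀ x ∈ M, IsIntegral ℤ (hf c H x y)) → D • y ∈ M
  span : ∀ x : Fin n → L, ∃ N : ℕ, N ≠ 0 ∧ (N : L) • x ∈ M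

lemma Conj.invol {L : Type} [Field L] [NumberField L] {c : L ≃+* L} (h : Conj c) (x : L) :
    c (c x) = x := by
  obtain ⟨φ⟩ : Nonempty (L →+* ℂ) := inferInstance
  apply φ.injective
  rw [h, h, Complex.conj_conj]

lemma int_conj {L : Type} [Field L] (c : L ≃+* L) {x : L} (h : IsIntegral ℤ x) :
    IsIntegral ℤ (c x) :=
  h.map c.toRingHom.toIntAlgHom

lemma norm_le_one_of_int {K : Type} [NormedField K] [IsUltrametricDist K] {x : K}
    (h : IsIntegral ℤ x) : ‖x‖ ≤ 1 := by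
  by_contra hx
  push Not at hx
  obtain ⟨f, hf, hfx⟩ := h
  rw [hf.as_sum, eval₂_add, eval₂_X_pow, eval₂_finsetSum] at hfx
  have h1 : x ^ f.natDegree = -∑ i ∈ Finset.range f.natDegree,
      eval₂ (algebraMap ℤ K) x (C (f.coeff i) * X ^ i) := eq_neg_of_add_eq_zero_left hfx
  rcases Nat.eq_zero_or_pos f.natDegree with h0 | h0
  · rw [h0] at h1
    simp at h1
  have h2 : ‖x ^ f.natDegree‖ ≤ ‖x‖ ^ (f.natDegree - 1) := by
    rw [h1, norm_neg]
    refine IsUltrametricDist.norm_sum_le_of_forall_le_of_nonneg (by positivity) fun i hi => ?_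
    rw [eval₂_mul, eval₂_C, eval₂_X_pow, norm_mul, norm_pow]
    have h3 : ‖algebraMap ℤ K (f.coeff i)‖ ≤ 1 := by
      simpa using IsUltrametricDist.norm_intCast_le_one K (f.coeff i)
    have h4 : ‖x‖ ^ i ≤ ‖x‖ ^ (f.natDegree - 1) :=
      pow_le_pow_right₀ hx.le (by have := Finset.mem_range.1 hi; omega)
    calc _ ≤ 1 * ‖x‖ ^ i := by gcongr
      _ ≤ _ := by rw [one_mul]; exact h4
  rw [norm_pow] at h2
  have h5 : ‖x‖ ^ (f.natDegree - 1) < ‖x‖ ^ f.natDegree := pow_lt_pow_right₀ hx (by omega)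
  linarith

lemma norm_map_le_one {K L : Type} [NormedField K] [IsUltrametricDist K] [Field L] (j : L →+* K)
    {x : L} (h : IsIntegral ℤ x) : ‖j x‖ ≤ 1 :=
  norm_le_one_of_int (h.map j.toIntAlgHom)

instance fdSub (F : Type) {R M : Type} [Field F] [Ring R] [Algebra F R] [AddCommGroup M]
    [Module F M] [Module R M] [IsScalarTower F R M] [FiniteDimensional F M] (N : Submodule R M) :
    FiniteDimensional F N :=
  FiniteDimensional.of_injective (N.subtype.restrictScalars F) N.injective_subtype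

/-- characteristic polynomial of an element of the algebra `R` acting on the module `M` -/
noncomputable def cp (F : Type) {R : Type} (M : Type) [Field F] [Ring R] [Algebra F R]
    [AddCommGroup M] [Module F M] [Module R M] [IsScalarTower F R M] [FiniteDimensional F M]
    (a : R) : F[X] :=
  LinearMap.charpoly (Algebra.lsmul F F M a : M →ₗ[F] M)

end Pool.Agent.P.MP_7cb106_nt.T
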