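import Pool.Agent.P.MP_7cb106_nt.T.Basic

/-! Statements of the steps. -/

set_option autoImplicit false

namespace Pool.Agent.P.MP_7cb106_nt.T

open Matrix Polynomial Module NumberField
open scoped TensorProduct ComplexOrder

-- deps:
def S_AVG : Prop :=
  ∀ (C G V : Type) [Field C] [CharZero C] [Group G] [TopologicalSpace G] [IsTopologicalGroup G]
    [AddCommGroup V] [Module C V] (ρ : Representation C G V) (U : Subgroup G),
    IsCompact (U : Set G) → Smooth ρ → ∀ v : V, ∃ v' : V, (∀ u ∈ U, ρ u v' = v') ∧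
      ∀ A : Submodule C V, (∀ u ∈ U, ρ u v - v ∈ A) → v' - v ∈ A

-- deps:
def S_TRADD : Prop :=
  ∀ (C V V' : Type) [Field C] [AddCommGroup V] [Module C V] [AddCommGroup V'] [Module C V']
    (φ : V →ₗ[C] V') (f : V →ₗ[C] V) (f' : V' →ₗ[C] V') (B : Submodule C V),
    FiniteDimensional C B → (∀ x ∈ B, f x ∈ B) → (∀ x ∈ B, φ (f x) = f' (φ x)) →
      trOn B f = trOn (B ⊓ LinearMap.ker φ) f + trOn (B.map φ) f'

-- deps:
def S_CHAR : Prop :=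
  ∀ (C H S V : Type) [Field C] [CharZero C] [Group H] [AddCommGroup S] [Module C S]
    [FiniteDimensional C S] [AddCommGroup V] [Module C V] (σ : Representation C H S)
    (ρ : Representation C H V) (N : Subgroup H) [N.Normal] [Finite (H ⧸ N)],
    (∀ u ∈ N, σ u = 1) → FiniteDimensional C (inv ρ N) →
      mu (fun k => LinearMap.trace C S (σ k)) N (fun k => ρ k) (inv ρ N) =
        (Nat.card (H ⧸ N) : C) * (finrank C (Representation.IntertwiningMap σ ρ) : C)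

-- deps: AVG
def S_SUBQ : Prop :=
  ∀ (C G V : Type) [Field C] [CharZero C] [Group G] [TopologicalSpace G] [IsTopologicalGroup G]
    [AddCommGroup V] [Module C V] (ρ : Representation C G V) (K0 : Subgroup G),
    IsOpen (K0 : Set G) → IsCompact (K0 : Set G) → Smooth ρ → Admissible ρ →
    ∀ (A B : Submodule C V), (∀ g, ∀ x ∈ A, ρ g x ∈ A) → (∀ g, ∀ x ∈ B, ρ g x ∈ B) → A ≤ B →
    ∀ v ∈ B, v ∉ A →
      ∃ W1 W2 : Submodule C V, (∀ g, ∀ x ∈ W1, ρ g x ∈ W1) ∧ (∀ g, ∀ x ∈ W2, ρ g x ∈ W2) ∧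
        A ≤ W2 ∧ W2 ≤ W1 ∧ W1 ≤ B ∧ v ∈ W1 ∧ v ∉ W2 ∧
        ∃ (V' : Type) (_ : AddCommGroup V') (_ : Module C V') (π : Representation C G V')
          (φ : V →ₗ[C] V'), π.IsIrreducible ∧ Smooth π ∧ Admissible π ∧ W1.map φ = ⊤ ∧
          (∀ x ∈ W1, φ x = 0 ↔ x ∈ W2) ∧ ∀ g, ∀ x ∈ W1, φ (ρ g x) = π g (φ x)

-- deps: AVG TRADD SUBQ
def S_DEV : Prop :=
  ∀ (C G : Type) [Field C] [CharZero C] [Group G] [TopologicalSpace G] [IsTopologicalGroup G]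
    (K0 : Subgroup G) (N : Subgroup K0) [N.Normal] (θ : K0 → C),
    IsOpen (K0 : Set G) → IsCompact (K0 : Set G) → IsOpen (N : Set K0) →
    (∀ (V : Type) [AddCommGroup V] [Module C V] (π : Representation C G V),
      π.IsIrreducible → Smooth π → Admissible π →
        mu θ N (fun k => π k) (inv (π.comp K0.subtype) N) = 0) →
    ∀ (V : Type) [AddCommGroup V] [Module C V] (ρ : Representation C G V),
      Smooth ρ → Admissible ρ → ∀ B : Submodule C V, (∀ g, ∀ x ∈ B, ρ g x ∈ B) →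
        mu θ N (fun k => ρ k) (B ⊓ inv (ρ.comp K0.subtype) N) = 0

-- deps:
def S_AUT : Prop :=
  ∀ (C G : Type) [Field C] [Group G] [TopologicalSpace G] [IsTopologicalGroup G]
    (Γ K0 : Subgroup G), IsOpen (K0 : Set G) → IsCompact (K0 : Set G) → Cofin Γ K0 →
      Smooth (autRep C Γ) ∧ Admissible (autRep C Γ)

-- deps:
def S_EIG : Prop :=
  ∀ (C V : Type) [Field C] [CharZero C] [IsAlgClosed C] [AddCommGroup V] [Module C V]
    (D f : V →ₗ[C] V) (W : Submodule C V) (r : ℕ), 0 < r → D ^ r = 1 → D * f = f * D →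
    FiniteDimensional C W → (∀ x ∈ W, D x ∈ W) → (∀ x ∈ W, f x ∈ W) →
      trOn W (D * f) =
        ∑ ζ ∈ nthRootsFinset r (1 : C), ζ * trOn (Module.End.eigenspace D ζ ⊓ W) f

-- deps:
def S_GEO : Prop :=
  ∀ (C G : Type) [Field C] [Group G] [TopologicalSpace G] [IsTopologicalGroup G]
    (Γ K0 : Subgroup G) (N : Subgroup K0) [N.Normal] (θ : K0 → C) (δ : K0)
    (hδ : ∀ γ ∈ Γ, (δ : G) * γ * (δ : G)⁻¹ ∈ Γ),
    IsOpen (K0 : Set G) → IsCompact (K0 : Set G) → IsOpen (N : Set K0) → Cofin Γ K0 →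
    Rigid Γ K0 δ → (∀ k k', IsConj k k' → θ k = θ k') → (∀ u ∈ N, ∀ k, θ (u * k) = θ k) →
      ∃ a : ℕ, 0 < a ∧
        mu θ N (fun k => autD C Γ δ hδ * autRep C Γ k) (inv ((autRep C Γ).comp K0.subtype) N) =
          a * θ δ

-- deps: CHAR DEV AUT EIG GEO
def S_GLOB : Prop :=
  ∀ (C G S S' : Type) [Field C] [CharZero C] [IsAlgClosed C] [Group G] [TopologicalSpace G]
    [IsTopologicalGroup G] [AddCommGroup S] [Module C S] [FiniteDimensional C S]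
    [AddCommGroup S'] [Module C S'] [FiniteDimensional C S'] (Γ K0 : Subgroup G)
    (σ : Representation C K0 S) (σ' : Representation C K0 S') (m m' : ℕ) (δ : K0) (r : ℕ),
    IsOpen (K0 : Set G) → IsCompact (K0 : Set G) → Smooth σ → Smooth σ' → Hyp K0 σ σ' m m' →
    Cofin Γ K0 → (∀ γ ∈ Γ, (δ : G) * γ * (δ : G)⁻¹ ∈ Γ) → Rigid Γ K0 δ → 0 < r → δ ^ r = 1 →
      (m' : C) * LinearMap.trace C S (σ δ) = m * LinearMap.trace C S' (σ' δ)

-- deps: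
def S_IVT : Prop :=
  ∀ (f : ℤ[X]) (d : ℕ), f.natDegree ≤ d → ∃ t0 : ℕ, ∀ t : ℕ, t0 ≤ t →
    f + C (t : ℤ) * ∏ i ∈ Finset.range d, (X - C (i : ℤ)) ≠ 0 ∧
      ∀ z : ℂ, aeval z (f + C (t : ℤ) * ∏ i ∈ Finset.range d, (X - C (i : ℤ))) = 0 → z.im = 0

-- deps:
def S_HEN : Prop :=
  ∀ (K : Type) [NontriviallyNormedField K] [CompleteSpace K] (f : K[X]) (α : K) (d : ℕ),
    f.natDegree ≤ d → f.eval α = 0 → f.derivative.eval α ≠ 0 → ∀ ε : ℝ, 0 < ε →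
      ∃ η : ℝ, 0 < η ∧ ∀ g : K[X], g.natDegree ≤ d → (∀ i, ‖g.coeff i - f.coeff i‖ < η) →
        ∃ y, ‖y - α‖ < ε ∧ g.eval y = 0

-- deps: IVT HEN
def S_TR : Prop :=
  ∀ (p : ℕ) [Fact p.Prime] (K : Type) [NontriviallyNormedField K] [IsUltrametricDist K]
    [NormedAlgebra ℚ_[p] K] [FiniteDimensional ℚ_[p] K], Dense {y : K | TotReal y}

-- deps: TR
def S_BAS : Prop :=
  ∀ (p : ℕ) [Fact p.Prime] (K : Type) [NontriviallyNormedField K] [IsUltrametricDist K]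
    [NormedAlgebra ℚ_[p] K] [FiniteDimensional ℚ_[p] K],
    (∃ s : Finset K, (∀ y ∈ s, TotReal y) ∧
      ∀ B : Subfield K, (s : Set K) ⊆ B → Dense (B : Set K)) ∧
    ∃ a : K, a ^ 2 - a + p = 0 ∧ ‖a‖ < 1 ∧ ‖1 - a‖ = 1

-- deps:
def S_REV : Prop :=
  ∀ P : ℂ[X], P.Monic → (∀ z, P.IsRoot z → ‖z‖ = 1) →
    P.coeff 0 ≠ 0 ∧ ∀ i ≤ P.natDegree,
      starRingEnd ℂ (P.coeff i) * P.coeff 0 = P.coeff (P.natDegree - i)

-- deps:
def S_FLD : Prop :=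
  ∀ (A : Type) [Field A] [CharZero A] [Algebra.IsAlgebraic ℚ A] (s : Finset A),
    (∀ x ∈ s, ∃ x' : A, ∀ φ : A →+* ℂ, φ x' = starRingEnd ℂ (φ x)) →
      ∃ (L : Type) (_ : Field L) (_ : NumberField L) (i : L →+* A) (c : L ≃+* L),
        Conj c ∧ ∀ x ∈ s, x ∈ Set.range i

-- deps: BAS REV FLD
def S_CMF : Prop :=
  ∀ (p : ℕ) [Fact p.Prime] (K : Type) [NontriviallyNormedField K] [IsUltrametricDist K]
    [NormedAlgebra ℚ_[p] K] [FiniteDimensional ℚ_[p] K] (P : K[X]) (r N : ℕ), 0 < r → P.Monic →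
    P ∣ (X ^ r - 1) ^ N →
      ∃ (L : Type) (_ : Field L) (_ : NumberField L) (j : L →+* K) (c : L ≃+* L) (P0 : L[X]),
        CM j c ∧ P0.map j = P

-- deps:
def S_BETA : Prop :=
  ∀ (K L : Type) [NormedField K] [IsUltrametricDist K] [Field L] [NumberField L] (j : L →+* K)
    (c : L ≃+* L), CM j c →
      ∃ β : L, IsIntegral ℤ β ∧ β ≠ 0 ∧ ‖j β‖ < 1 ∧ ‖j (c β)‖ = 1 ∧
        (∀ t : L, IsIntegral ℤ t → ‖j t‖ = 1 → ∀ k : ℕ,
          ∃ u v : L, IsIntegral ℤ u ∧ IsIntegral ℤ v ∧ u * t + v * β ^ k = 1) ∧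
        ∀ z : L, ‖j z‖ ≤ 1 → ∃ t : L, IsIntegral ℤ t ∧ ‖j t‖ = 1 ∧ IsIntegral ℤ (t * z)

-- deps: BETA
def S_GOOD : Prop :=
  ∀ (K L : Type) [NormedField K] [IsUltrametricDist K] [Field L] [NumberField L] (j : L →+* K)
    (c : L ≃+* L), CM j c → ∃ b : 𝓞 L, Good j c b

-- deps:
def S_GZ : Prop :=
  ∀ (L : Type) [Field L] [NumberField L] (P : L[X]) (r N n : ℕ), 0 < r → P.Monic →
    P.natDegree = n → P ∣ (X ^ r - 1) ^ N →
      ∃ g : Matrix (Fin n) (Fin n) L, (∀ i k, IsIntegral ℤ (g i k)) ∧ g ^ r = 1 ∧ g.charpoly = P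

-- deps:
def S_HF : Prop :=
  ∀ (L : Type) [Field L] [NumberField L] (c : L ≃+* L) (n r : ℕ) (g : Matrix (Fin n) (Fin n) L),
    Conj c → 0 < r → (∀ i k, IsIntegral ℤ (g i k)) → g ^ r = 1 →
      ∃ H : Matrix (Fin n) (Fin n) L, Herm c H ∧ Uni c H g

-- deps:
def S_DEN : Prop :=
  ∀ (K L : Type) [NormedField K] [IsUltrametricDist K] [Field L] [NumberField L] (j : L →+* K)
    (c : L ≃+* L) (b : 𝓞 L) (n : ℕ) (H : Matrix (Fin n) (Fin n) L) (g : GL (Fin n) K),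
    Good j c b → Herm c H →
      (∀ x : Fin n → L, (∀ i, x i ∈ Rb b) → ∃ k : ℕ, (b : L) ^ k • x ∈ latM j c b H g) ∧
      ∀ z1 z2 : Fin n → K,
        (∀ i, ‖(((g⁻¹ : GL (Fin n) K) : Matrix (Fin n) (Fin n) K) *ᵥ z1) i‖ ≤ 1) →
        (∀ i, ‖((H.map j * (g : Matrix (Fin n) (Fin n) K))ᵀ *ᵥ z2) i‖ ≤ 1) →
        ∀ ε : ℝ, 0 < ε → ∃ x ∈ latM j c b H g,
          ∀ i, ‖j (x i) - z1 i‖ < ε ∧ ‖j (c (x i)) - z2 i‖ < ε

-- deps:
def S_DUAL : Prop :=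
  ∀ (L : Type) [Field L] [NumberField L],
    (∃ d : ℕ, d ≠ 0 ∧ ∀ z : L,
      (∀ a : L, IsIntegral ℤ a → ∃ t : ℤ, Algebra.trace ℚ L (a * z) = t) →
        IsIntegral ℤ ((d : L) * z)) ∧
    (∀ D : L, IsIntegral ℤ D → D ≠ 0 →
      ∃ N : ℕ, N ≠ 0 ∧ ∃ e : L, IsIntegral ℤ e ∧ (N : L) = e * D) ∧
    ∀ (n : ℕ) (x : Fin n → L), ∃ N : ℕ, N ≠ 0 ∧ ∀ i, IsIntegral ℤ ((N : L) * x i)

-- deps: DEN DUAL
def S_LAT : Prop :=
  ∀ (K L : Type) [NormedField K] [IsUltrametricDist K] [Field L] [NumberField L] (j : L →+* K)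
    (c : L ≃+* L) (b : 𝓞 L) (n : ℕ) (H : Matrix (Fin n) (Fin n) L) (g : GL (Fin n) K),
    Conj c → Good j c b → Herm c H → Lat c H H.det (latM j c b H g)

-- deps: DEN
def S_ISO : Prop :=
  ∀ (K L : Type) [NormedField K] [IsUltrametricDist K] [Field L] [NumberField L] (j : L →+* K)
    (c : L ≃+* L) (b : 𝓞 L) (n : ℕ) (H : Matrix (Fin n) (Fin n) L) (g t : GL (Fin n) K)
    (u : GL (Fin n) L), Good j c b → Herm c H → Uni c H (u : Matrix (Fin n) (Fin n) L) →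
    (∀ x, x ∈ latM j c b H t ↔ (u : Matrix (Fin n) (Fin n) L) *ᵥ x ∈ latM j c b H g) →
      u ∈ Gam c b H ∧ g⁻¹ * Matrix.GeneralLinearGroup.map j u * t ∈ Kint K n

-- deps:
def S_CS : Prop :=
  ∀ (L : Type) [Field L] [NumberField L] (c : L ≃+* L) (n : ℕ) (H : Matrix (Fin n) (Fin n) L),
    Conj c → Herm c H →
      (∀ x y, Algebra.trace ℚ L (hf c H x y) = Algebra.trace ℚ L (hf c H y x)) ∧
      (∀ x, x ≠ 0 → 0 < Algebra.trace ℚ L (hf c H x x)) ∧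
      ∀ (B : ℝ) x y, (Algebra.trace ℚ L (hf c H x x) : ℝ) ≤ B →
        (Algebra.trace ℚ L (hf c H y y) : ℝ) ≤ B → ∀ φ : L →+* ℂ, ‖φ (hf c H x y)‖ ≤ B

-- deps:
def S_ZB : Prop :=
  ∀ (L : Type) [Field L] [NumberField L] (c : L ≃+* L) (n : ℕ) (H : Matrix (Fin n) (Fin n) L)
    (D : L) (M : Set (Fin n → L)), Herm c H → Lat c H D M →
      ∃ x : Basis (Fin (n * finrank ℚ L)) ℚ (Fin n → L),
        M = (Submodule.span ℤ (Set.range x) : Set (Fin n → L))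

-- deps:
-- imports: Pool.Agent.P.MP_59bdab_ag.HERM Pool.Agent.P.MP_59bdab_ag.EXT
def S_HER : Prop :=
  ∀ N d : ℕ, d ≠ 0 → ∃ B : ℝ, ∀ (V : Type) [AddCommGroup V] [Module ℚ V]
    (q : V →ₗ[ℚ] V →ₗ[ℚ] ℚ) (x : Basis (Fin N) ℚ V),
    (∀ v w, q v w = q w v) → (∀ v, v ≠ 0 → 0 < q v v) → (∀ a e, ∃ t : ℤ, q (x a) (x e) = t) →
    (∀ y, (∀ a, ∃ t : ℤ, q (x a) y = t) → (d : ℚ) • y ∈ Submodule.span ℤ (Set.range x)) →
      ∃ x' : Basis (Fin N) ℚ V, Submodule.span ℤ (Set.range x') = Submodule.span ℤ (Set.range x) ∧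
        ∀ a, (q (x' a) (x' a) : ℝ) ≤ B

-- deps: DUAL CS ZB HER
def S_SHORT : Prop :=
  ∀ (L : Type) [Field L] [NumberField L] (c : L ≃+* L) (n : ℕ) (H : Matrix (Fin n) (Fin n) L)
    (D : L), Conj c → Herm c H → IsIntegral ℤ D → D ≠ 0 →
      ∃ B : ℝ, ∀ M, Lat c H D M → ∃ x : Basis (Fin (n * finrank ℚ L)) ℚ (Fin n → L),
        M = (Submodule.span ℤ (Set.range x) : Set (Fin n → L)) ∧
          ∀ a e, IsIntegral ℤ (hf c H (x a) (x e)) ∧ ∀ φ : L →+* ℂ, ‖φ (hf c H (x a) (x e))‖ ≤ B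

-- deps:
def S_GRAM : Prop :=
  ∀ (L : Type) [Field L] (c : L ≃+* L) (n : ℕ) (H : Matrix (Fin n) (Fin n) L) (ι : Type)
    [Fintype ι] (x y : ι → Fin n → L), H.det ≠ 0 → Submodule.span L (Set.range x) = ⊤ →
    Submodule.span L (Set.range y) = ⊤ → (∀ a e, hf c H (x a) (x e) = hf c H (y a) (y e)) →
      ∃ u : GL (Fin n) L, Uni c H (u : Matrix (Fin n) (Fin n) L) ∧
        ∀ a, (u : Matrix (Fin n) (Fin n) L) *ᵥ x a = y a

-- deps: LAT ISO SHORT GRAM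
def S_COC : Prop :=
  ∀ (K L : Type) [NormedField K] [IsUltrametricDist K] [Field L] [NumberField L] (j : L →+* K)
    (c : L ≃+* L) (b : 𝓞 L) (n : ℕ) (H : Matrix (Fin n) (Fin n) L),
    Conj c → Good j c b → Herm c H →
      Cofin ((Gam c b H).map (Matrix.GeneralLinearGroup.map j)) (Kint K n)

-- deps:
def S_IDX : Prop :=
  ∀ (L : Type) [Field L] [NumberField L] (c : L ≃+* L) (b : 𝓞 L) (n : ℕ)
    (H : Matrix (Fin n) (Fin n) L) (l : ℕ), l ≠ 0 → (b : L) ≠ 0 →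
      ∃ T : Finset (GL (Fin n) L), ∀ γ ∈ Gam c b H, ∃ γ' ∈ GamL c b H l, ∃ t ∈ T, γ = γ' * t

-- deps:
def S_UNI : Prop :=
  ∀ (n : ℕ) (H U : Matrix (Fin n) (Fin n) ℂ), H.PosDef → Uᴴ * H * U = H →
    ‖U.trace‖ ≤ n ∧ (U.trace = n → U = 1)

-- deps: UNI
def S_CONJ : Prop :=
  ∀ (K L : Type) [NormedField K] [IsUltrametricDist K] [Field L] [NumberField L] (j : L →+* K)
    (c : L ≃+* L) (b : 𝓞 L) (n : ℕ) (H : Matrix (Fin n) (Fin n) L) (l r : ℕ)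
    (γ g : GL (Fin n) L) (x : GL (Fin n) K), Conj c → Good j c b → Herm c H → 2 * n < l →
    ‖(l : K)‖ = 1 → γ ∈ Gam c b H → g ∈ Gam c b H →
    (∀ i k, IsIntegral ℤ ((g : Matrix (Fin n) (Fin n) L) i k)) → g ^ r = 1 →
    Cong b l (γ : Matrix (Fin n) (Fin n) L) g →
    x⁻¹ * Matrix.GeneralLinearGroup.map j γ * x ∈ Kint K n →
      γ ^ r = 1 ∧ ∀ i : ℕ, ((γ : Matrix (Fin n) (Fin n) L) ^ i).trace =
        ((g : Matrix (Fin n) (Fin n) L) ^ i).trace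

-- deps:
def S_QUO : Prop :=
  ∀ (F V : Type) [Field F] [AddCommGroup V] [Module F V] [FiniteDimensional F V]
    (f : V →ₗ[F] V) (U : Submodule F V) (h : ∀ x ∈ U, f x ∈ U),
      f.charpoly = (f.restrict h).charpoly * (U.mapQ U f h).charpoly

-- deps: QUO
def S_POW : Prop :=
  ∀ (C V : Type) [Field C] [IsAlgClosed C] [AddCommGroup V] [Module C V] [FiniteDimensional C V]
    (f : V →ₗ[C] V) (i : ℕ),
      LinearMap.trace C V (f ^ i) = (f.charpoly.roots.map (· ^ i)).sum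

-- deps: POW
def S_NEWT : Prop :=
  ∀ (C ι κ : Type) [Field C] [CharZero C] [Fintype ι] [DecidableEq ι] [Fintype κ] [DecidableEq κ]
    (A : Matrix ι ι C) (B : Matrix κ κ C) (m m' : ℕ),
    (∀ i : ℕ, (m' : C) * (A ^ i).trace = m * (B ^ i).trace) →
      A.charpoly ^ m' = B.charpoly ^ m

-- deps:
def S_CPD : Prop :=
  ∀ (K : Type) [Field K] (n r : ℕ) (A : Matrix (Fin n) (Fin n) K), A ^ r = 1 →
    A.charpoly ∣ (X ^ r - 1) ^ n

-- deps:
def S_SEMI : Prop :=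
  ∀ (k : Type) [Field k] (n r : ℕ) (A B : Matrix (Fin n) (Fin n) k), (r : k) ≠ 0 → A ^ r = 1 →
    B ^ r = 1 → A.charpoly = B.charpoly →
      ∃ U : Matrix (Fin n) (Fin n) k, IsUnit U.det ∧ U * A = B * U

-- deps: SEMI
def S_RIG : Prop :=
  ∀ (K : Type) [NormedField K] [IsUltrametricDist K] (n r : ℕ) (γ γ' : Kint K n),
    ‖(r : K)‖ = 1 → γ ^ r = 1 → γ' ^ r = 1 →
    ((γ : GL (Fin n) K) : Matrix (Fin n) (Fin n) K).charpoly =
      ((γ' : GL (Fin n) K) : Matrix (Fin n) (Fin n) K).charpoly → IsConj γ γ'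

-- deps:
def S_TOP : Prop :=
  ∀ (p : ℕ) [Fact p.Prime] (K : Type) [NontriviallyNormedField K] [IsUltrametricDist K]
    [NormedAlgebra ℚ_[p] K] [FiniteDimensional ℚ_[p] K] (n : ℕ),
      IsOpen (Kint K n : Set (GL (Fin n) K)) ∧ IsCompact (Kint K n : Set (GL (Fin n) K))

-- deps:
def S_NIL : Prop :=
  ∀ (p : ℕ) (K : Type) [NormedField K] [IsUltrametricDist K] (n : ℕ) (u : Kint K n),
    ‖(p : K)‖ < 1 →
    (∀ i k, ‖(((u : GL (Fin n) K) : Matrix (Fin n) (Fin n) K) - 1) i k‖ < 1) →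
      Filter.Tendsto (fun e : ℕ => u ^ p ^ e) Filter.atTop (nhds 1)

-- deps: TOP NIL
def S_LIFT : Prop :=
  ∀ (p : ℕ) [Fact p.Prime] (K : Type) [NontriviallyNormedField K] [IsUltrametricDist K]
    [NormedAlgebra ℚ_[p] K] [FiniteDimensional ℚ_[p] K] (n f : ℕ) (N : Subgroup (Kint K n))
    (g : Kint K n), 0 < f → IsOpen (N : Set (Kint K n)) →
      ∃ (e r : ℕ) (γ : Kint K n), 0 < r ∧ ¬ p ∣ r ∧ γ ^ r = 1 ∧ γ⁻¹ * g ^ (p ^ f) ^ e ∈ N

-- deps: CPD CMF GOOD GZ HF COC IDX CONJ NEWT RIG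
def S_ARI : Prop :=
  ∀ (p : ℕ) [Fact p.Prime] (K : Type) [NontriviallyNormedField K] [IsUltrametricDist K]
    [NormedAlgebra ℚ_[p] K] [FiniteDimensional ℚ_[p] K] (n r : ℕ) (γ : Kint K n),
    0 < r → ¬ p ∣ r → γ ^ r = 1 →
      ∃ (Γ : Subgroup (GL (Fin n) K)) (δ : Kint K n), IsConj δ γ ∧ δ ^ r = 1 ∧
        Cofin Γ (Kint K n) ∧
        (∀ x ∈ Γ, (δ : GL (Fin n) K) * x * (δ : GL (Fin n) K)⁻¹ ∈ Γ) ∧ Rigid Γ (Kint K n) δ

-- deps: TOP LIFT ARI GLOB NEWT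
def S_RED : Prop :=
  ∀ (p : ℕ) [Fact p.Prime] (K : Type) [NontriviallyNormedField K] [IsUltrametricDist K]
    [NormedAlgebra ℚ_[p] K] [FiniteDimensional ℚ_[p] K] (n : ℕ)
    (O C F : Type) [CommRing O] [Field C] [CharZero C] [IsAlgClosed C] [Field F] [Finite F]
    [CharP F p] [Algebra O C] [Algebra O F] (S S' L : Type)
    [AddCommGroup S] [Module O S] [Module.Free O S] [Module.Finite O S]
    [AddCommGroup S'] [Module O S'] [Module.Free O S'] [Module.Finite O S']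
    [AddCommGroup L] [Module O L] [Module.Free O L] [Module.Finite O L]
    (σ : Representation O (Kint K n) S) (σ' : Representation O (Kint K n) S')
    (lam : Representation O (Kint K n) L) (m m' : ℕ),
    Function.Injective (algebraMap O C) → Smooth σ → Smooth σ' → Smooth (extend F lam) →
    Hyp (Kint K n) (extend C σ) (extend C σ') m m' → ∀ g : Kint K n,
      (extend F (σ.tprod lam) g).charpoly ^ m' = (extend F (σ'.tprod lam) g).charpoly ^ m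

-- deps: QUO
def S_SER : Prop :=
  ∀ (F R M : Type) [Field F] [Ring R] [Algebra F R] [AddCommGroup M] [Module F M] [Module R M]
    [IsScalarTower F R M] [FiniteDimensional F M] (s : CompositionSeries (Submodule R M)),
    s.head = ⊥ → s.last = ⊤ → ∀ a : R,
      cp F M a = ∏ i : Fin s.length,
        cp F (↥(s i.succ) ⧸ (s i.castSucc).submoduleOf (s i.succ)) a

-- deps:
def S_IND : Prop :=
  ∀ (F R : Type) [Field F] [Finite F] [Ring R] [Algebra F R] (D : Finset (Submodule R R)),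
    (∀ I ∈ D, IsSimpleModule R (R ⧸ I) ∧ FiniteDimensional F (R ⧸ I)) →
    (∀ I ∈ D, ∀ J ∈ D, Nonempty ((R ⧸ I) ≃ₗ[R] (R ⧸ J)) → I = J) →
    ∀ I ∈ D, ∃ x : R, LinearMap.trace F (R ⧸ I) (Algebra.lsmul F F (R ⧸ I) x) ≠ 0 ∧
      ∀ J ∈ D, J ≠ I → Algebra.lsmul F F (R ⧸ J) x = 0

-- deps: IND
def S_BN : Prop :=
  ∀ (F R : Type) [Field F] [Finite F] [Ring R] [Algebra F R] (E : Set R),
    Submodule.span F E = ⊤ → ∀ (ι κ : Type) [Fintype ι] [Fintype κ] (I : ι → Submodule R R)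
    (J : κ → Submodule R R) [∀ i, FiniteDimensional F (R ⧸ I i)]
    [∀ k, FiniteDimensional F (R ⧸ J k)] (m m' : ℕ),
    (∀ i, IsSimpleModule R (R ⧸ I i)) → (∀ k, IsSimpleModule R (R ⧸ J k)) →
    (∀ a ∈ E, (∏ i, cp F (R ⧸ I i) a) ^ m' = (∏ k, cp F (R ⧸ J k) a) ^ m) →
    ∀ (W : Type) [AddCommGroup W] [Module R W],
      m' * Nat.card {i // Nonempty ((R ⧸ I i) ≃ₗ[R] W)} =
        m * Nat.card {k // Nonempty ((R ⧸ J k) ≃ₗ[R] W)}

-- deps: SER BN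
def S_JH : Prop :=
  ∀ (F H V V' W : Type) [Field F] [Finite F] [Group H] [AddCommGroup V] [Module F V]
    [FiniteDimensional F V] [AddCommGroup V'] [Module F V'] [FiniteDimensional F V']
    [AddCommGroup W] [Module F W] (ρ : Representation F H V) (ρ' : Representation F H V')
    (a : Representation F H W) (m m' : ℕ),
    (∀ g, (ρ g).charpoly ^ m' = (ρ' g).charpoly ^ m) →
    ∀ N N' : ℕ, HasMult ρ a N → HasMult ρ' a N' → m' * N = m * N'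

end Pool.Agent.P.MP_7cb106_nt.T
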